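import Pool.Agent.P.MP_42c3cc_al.M2
import Pool.Agent.P.MP_42c3cc_al.Br2

open Pool.Agent.P.MP_42c3cc_al

universe u

/-- Finite generation of cohomology passes from `A / K⁺A` to `A` for every central Hopf
subalgebra `K` of a finite dimensional Hopf algebra `A`. -/
theorem Pool.Agent.Results.MP_42c3cc_al.CentralExt.result (k : Type u) [Field k] (A L : Type u)
    [Ring A] [HopfAlgebra k A] [FiniteDimensional k A] [Ring L] [HopfAlgebra k L]
    (K : Subalgebra k A) (hcen : K ≤ Subalgebra.center k A)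
    (hcom : ∀ x ∈ K, Coalgebra.comul (R := k) x ∈
      LinearMap.range (TensorProduct.map K.val.toLinearMap K.val.toLinearMap))
    (hant : ∀ x ∈ K, HopfAlgebra.antipode k x ∈ K)
    (π : A →ₐc[k] L) (hπ : Function.Surjective π)
    (hker : ∀ a, π a = 0 ↔ a ∈ Ideal.span {x | x ∈ K ∧ Coalgebra.counit (R := k) x = 0})
    (hL : FG k L) : FG k A := by
  let _ : CommRing K := { (inferInstance : Ring K) with
    mul_comm := fun a b => Subtype.ext (Subalgebra.mem_center_iff.1 (hcen b.2) a) }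
  have : FiniteDimensional k L := Module.Finite.of_surjective (π : A →ₐ[k] L).toLinearMap hπ
  have hj : EO.CH K.val := ⟨Subtype.val_injective,
    fun x a => (Subalgebra.mem_center_iff.1 (hcen x.2) a).symm, fun x => hcom x x.2,
    fun x => ⟨⟨_, hant x x.2⟩, rfl⟩⟩
  refine (EO.fg_iff k A).2 (EO.main_central hj (π := π) ⟨hπ, fun a => ?_⟩ ((EO.fg_iff k L).1 hL))
  rw [hker]
  congr! 2
  ext b
  exact ⟨fun h => ⟨⟨b, h.1⟩, h.2, rfl⟩, by rintro ⟨x, hx, rfl⟩; exact ⟨x.2, hx⟩⟩
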