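import Pool.Agent.P.MP_42c3cc_al.U
import Pool.Agent.P.MP_42c3cc_al.Br2

open Pool.Agent.P.MP_42c3cc_al

universe u

/-- Finite generation of cohomology for a finite dimensional Hopf algebra `A` such that `A` and
the dual algebra of `A` are local rings. -/
theorem Pool.Agent.Results.MP_42c3cc_al.LocalConnected.result (k : Type u) [Field k] (A : Type u)
    [Ring A] [HopfAlgebra k A] [FiniteDimensional k A] [IsLocalRing A]
    [IsLocalRing (WithConv (A →ₗ[k] k))] : FG k A := by
  refine (EO.fg_iff k A).2 (EO.main_unip A (fun a ha => ?_) fun f hf => ?_)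
  · refine (IsLocalRing.isUnit_or_isUnit_of_add_one (a := a) (b := 1 - a) (by simp)).resolve_left
      fun h => ?_
    exact (h.map (Bialgebra.counitAlgHom k A)).ne_zero ha
  · refine (IsLocalRing.isUnit_or_isUnit_of_add_one (a := f) (b := 1 - f) (by simp)).resolve_left
      fun h => ?_
    obtain ⟨g, hg⟩ := h.exists_right_inv
    have := congrArg (fun t : WithConv (A →ₗ[k] k) => t.ofConv 1) hg
    simp [LinearMap.convMul_def, Algebra.TensorProduct.one_def, hf] at this
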